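import Mathlib

namespace Pool.Agent.Results.MP_763eff_nt.Carry
open Finset ArithmeticFunction

/-- the Lucas sequence `U(P,Q)` -/
def U (P Q : ℤ) : ℕ → ℤ
  | 0 => 0
  | 1 => 1
  | n + 2 => P * U P Q (n + 1) - Q * U P Q n

/-- the `U`-binomial coefficient -/
def binom (P Q : ℤ) (n k : ℕ) : ℚ :=
  (∏ x ∈ Ioc (n - k) n, (U P Q x : ℚ)) / ∏ x ∈ Ioc 0 k, (U P Q x : ℚ)

/-- the lcm analogue -/
def lcmBinom (P Q : ℤ) (n k : ℕ) : ℚ :=
  (((Ioc (n - k) n).lcm fun x => (U P Q x).natAbs : ℕ) : ℚ) /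
    (((Ioc 0 k).lcm fun x => (U P Q x).natAbs : ℕ) : ℚ)

/-- the homogeneous cyclotomic value `Φ_d(α, β)` -/
noncomputable def Phi (α β : ℂ) (d : ℕ) : ℂ := ∏ ζ ∈ primitiveRoots d ℂ, (α - ζ * β)

variable {P Q : ℤ}

lemma U_add (m n : ℕ) : U P Q (m + n + 1) = U P Q (m + 1) * U P Q (n + 1) - Q * U P Q m * U P Q n := by
  induction n using Nat.twoStepInduction with
  | zero => simp [U]
  | one => simp [U]; ring
  | more n h1 h2 =>
    have : U P Q (m + (n + 2) + 1) = P * U P Q (m + (n + 1) + 1) - Q * U P Q (m + n + 1) := rfl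
    rw [this, h1, h2]
    simp only [U]
    ring

lemma cop (h : IsCoprime P Q) (m : ℕ) :
    IsCoprime (U P Q (m + 1)) Q ∧ IsCoprime (U P Q (m + 1)) (U P Q m) := by
  induction m with
  | zero => exact ⟨isCoprime_one_left, isCoprime_one_left⟩
  | succ m ih =>
    constructor
    · have := (h.mul_left ih.1).add_mul_left_left (-U P Q m)
      rwa [show U P Q (m + 1 + 1) = P * U P Q (m + 1) + Q * (-U P Q m) by simp only [U]; ring]
    · have := (ih.1.symm.mul_left ih.2.symm).neg_left.add_mul_left_left P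
      rwa [show U P Q (m + 1 + 1) = -(Q * U P Q m) + U P Q (m + 1) * P by simp only [U]; ring]

lemma shift (h : IsCoprime P Q) {q : ℤ} {r : ℕ} (hr : q ∣ U P Q r) (n : ℕ) :
    q ∣ U P Q (r + n) ↔ q ∣ U P Q n := by
  rcases n with _ | n
  · simp [hr, U]
  · rw [← add_assoc, U_add, dvd_sub_left ((hr.mul_left Q).mul_right _)]
    exact ⟨fun h1 => ((cop h r).2.symm.of_isCoprime_of_dvd_left hr).dvd_of_dvd_mul_left h1,
      fun h1 => h1.mul_left _⟩

lemma rank (h : IsCoprime P Q) (q : ℕ) : ∃ r : ℕ, ∀ m, q ∣ (U P Q m).natAbs ↔ r ∣ m := by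
  simp only [← Int.natCast_dvd]
  by_cases hex : ∃ r, 0 < r ∧ (q : ℤ) ∣ U P Q r
  · classical
    have hs := Nat.find_spec hex
    refine ⟨Nat.find hex, fun m => ?_⟩
    have h1 : ∀ t s, (q : ℤ) ∣ U P Q (Nat.find hex * t + s) ↔ (q : ℤ) ∣ U P Q s := by
      intro t s
      induction t with
      | zero => simp
      | succ t ih => rw [← ih, ← shift h hs.2 (Nat.find hex * t + s)]; ring_nf
    rw [← Nat.div_add_mod m (Nat.find hex), h1, Nat.div_add_mod, Nat.dvd_iff_mod_eq_zero]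
    refine ⟨fun h2 => by_contra fun h3 => Nat.find_min hex (Nat.mod_lt m hs.1)
      ⟨Nat.pos_of_ne_zero h3, h2⟩, fun h2 => by simp [h2, U]⟩
  · refine ⟨0, fun m => ⟨fun h1 => ?_, fun h1 => by simp [zero_dvd_iff.1 h1, U]⟩⟩
    by_contra h2
    exact hex ⟨m, Nat.pos_of_ne_zero (fun e => h2 (by simp [e])), h1⟩

lemma log_eq (x X : ℕ) (h0 : x ≠ 0) (hX : x ≤ X) :
    Real.log x = ∑ q ∈ Ioc 0 X, Λ q * if q ∣ x then 1 else 0 := by
  rw [← vonMangoldt_sum]
  simp only [mul_ite, mul_one, mul_zero, ← sum_filter]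
  refine sum_congr ?_ (fun _ _ => rfl)
  ext q
  simp only [Nat.mem_divisors, mem_filter, mem_Ioc]
  exact ⟨fun h => ⟨⟨Nat.pos_of_dvd_of_pos h.1 (Nat.pos_of_ne_zero h0),
    (Nat.le_of_dvd (Nat.pos_of_ne_zero h0) h.1).trans hX⟩, h.1⟩, fun h => ⟨h.2, h0⟩⟩

lemma pp_lcm {q : ℕ} (hq : IsPrimePow q) (s : Finset ℕ) (f : ℕ → ℕ) (hf : ∀ x ∈ s, f x ≠ 0) :
    q ∣ s.lcm f ↔ ∃ x ∈ s, q ∣ f x := by
  refine ⟨fun h => ?_, fun ⟨x, hx, h⟩ => h.trans (dvd_lcm hx)⟩
  obtain ⟨p, j, hp, hj, rfl⟩ := (isPrimePow_nat_iff q).1 hq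
  rw [hp.pow_dvd_iff_le_factorization (Finset.lcm_ne_zero_iff.2 hf), factorization_lcm hf,
    Finset.le_sup_iff hj] at h
  obtain ⟨x, hx, h⟩ := h
  exact ⟨x, hx, (hp.pow_dvd_iff_le_factorization (hf x hx)).2 h⟩

lemma cnt (a k r : ℕ) : #{x ∈ Ioc a (a + k) | r ∣ x} + a / r = (a + k) / r := by
  rw [← Nat.Ioc_filter_dvd_card_eq_div, ← Nat.Ioc_filter_dvd_card_eq_div,
    ← Ioc_union_Ioc_eq_Ioc (Nat.zero_le a) (Nat.le_add_right a k), filter_union,
    card_union_of_disjoint (disjoint_filter_filter (Ioc_disjoint_Ioc_of_le le_rfl)), add_comm]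

lemma carry (a k r : ℕ) (hr : 0 < r) : r ≤ a % r + k % r ↔ (a + k) % r < k % r := by
  have h1 := Nat.mod_lt a hr
  have h2 := Nat.mod_lt k hr
  rw [Nat.add_mod]
  generalize a % r = x at *
  generalize k % r = y at *
  by_cases h : r ≤ x + y
  · rw [Nat.mod_eq_sub_mod h, Nat.mod_eq_of_lt (by omega)]
    omega
  · rw [Nat.mod_eq_of_lt (by omega)]
    omega

lemma comb (a k r : ℕ) :
    #{x ∈ Ioc a (a + k) | r ∣ x} + (if 0 < #{x ∈ Ioc 0 k | r ∣ x} then 1 else 0) =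
    #{x ∈ Ioc 0 k | r ∣ x} + (if 0 < #{x ∈ Ioc a (a + k) | r ∣ x} then 1 else 0) +
      if r ∈ ({d ∈ Ioc 0 k | (a + k) % d < k % d} : Finset ℕ) then 1 else 0 := by
  have h1 := cnt a k r
  simp only [Nat.Ioc_filter_dvd_card_eq_div, mem_filter, mem_Ioc]
  generalize #{x ∈ Ioc a (a + k) | r ∣ x} = c at *
  rcases Nat.eq_zero_or_pos r with rfl | hr
  · simp only [Nat.div_zero] at h1 ⊢
    simp at h1 ⊢
    simp [h1]
  rw [Nat.add_div hr] at h1
  simp only [carry a k r hr] at h1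
  by_cases hk : r ≤ k
  · have := Nat.div_pos hk hr
    simp only [hr, hk, true_and]
    generalize a / r = x at *
    generalize k / r = y at *
    split_ifs at h1 ⊢ <;> omega
  · have := Nat.div_eq_of_lt (not_le.1 hk)
    simp only [hk, and_false, false_and, if_false]
    generalize a / r = x at *
    generalize k / r = y at *
    split_ifs at h1 ⊢ <;> omega

lemma binet {α β : ℂ} (h1 : α + β = P) (h2 : α * β = Q) (m : ℕ) :
    (U P Q m : ℂ) * (α - β) = α ^ m - β ^ m := by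
  induction m using Nat.twoStepInduction with
  | zero => simp [U]
  | one => simp [U]
  | more n a b =>
    simp only [U]
    push_cast
    rw [← h1, ← h2]
    linear_combination (α + β) * b - α * β * a

lemma prodPhi {α β : ℂ} (h1 : α + β = P) (h2 : α * β = Q) (hab : α - β ≠ 0) (m : ℕ) (hm : m ≠ 0) :
    (U P Q m : ℂ) = ∏ d ∈ m.divisors.erase 1, Phi α β d := by
  classical
  have := binet h1 h2 m
  rw [(Complex.isPrimitiveRoot_exp m hm).pow_sub_pow_eq_prod_sub_mul _ _ (Nat.pos_of_ne_zero hm),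
    IsPrimitiveRoot.nthRoots_one_eq_biUnion_primitiveRoots,
    prod_biUnion (fun _ _ _ _ h => IsPrimitiveRoot.disjoint h),
    ← mul_prod_erase _ _ (Nat.one_mem_divisors.2 hm), IsPrimitiveRoot.primitiveRoots_one,
    prod_singleton, one_mul, mul_comm] at this
  exact mul_left_cancel₀ hab this

lemma absEq {α β : ℂ} (h : IsCoprime P Q) (h1 : α + β = P) (h2 : α * β = Q) (hab : α - β ≠ 0)
    (h0 : ∀ m, m ≠ 0 → U P Q m ≠ 0) (a k : ℕ) :
    (∏ x ∈ Ioc a (a + k), (U P Q x).natAbs) * ((Ioc 0 k).lcm fun x => (U P Q x).natAbs) =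
      (∏ x ∈ Ioc 0 k, (U P Q x).natAbs) * ((Ioc a (a + k)).lcm fun x => (U P Q x).natAbs) ↔
    ∀ d, 2 ≤ d → d ≤ k → (a + k) % d < k % d → ‖Phi α β d‖ = 1 := by
  classical
  choose r hr using rank h
  set u : ℕ → ℕ := fun x => (U P Q x).natAbs with hu
  have u0 : ∀ (c : ℕ) (e : ℕ), ∀ x ∈ Ioc c e, u x ≠ 0 := fun c e x hx =>
    Int.natAbs_ne_zero.2 (h0 x (by have := (mem_Ioc.1 hx).1; omega))
  set X := (Ioc 0 (a + k)).lcm u with hX
  have X0 : 0 < X := Nat.pos_of_ne_zero (Finset.lcm_ne_zero_iff.2 (u0 _ _))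
  have hl : ∀ c e, e ≤ a + k → Real.log ((Ioc c e).lcm u : ℕ) =
      ∑ q ∈ Ioc 0 X, Λ q * ((if 0 < #{x ∈ Ioc c e | r q ∣ x} then 1 else 0 : ℕ) : ℝ) := by
    intro c e he
    rw [log_eq _ X (Finset.lcm_ne_zero_iff.2 (u0 _ _)) (Nat.le_of_dvd X0
      (lcm_mono (Ioc_subset_Ioc (Nat.zero_le _) he)))]
    refine sum_congr rfl (fun q _ => ?_)
    by_cases hq : IsPrimePow q
    · have : q ∣ (Ioc c e).lcm u ↔ 0 < #{x ∈ Ioc c e | r q ∣ x} := by
        rw [pp_lcm hq _ _ (u0 c e), card_pos, filter_nonempty_iff]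
        simp only [hu, hr]
      simp only [this]
      split_ifs <;> simp
    · simp [vonMangoldt_eq_zero_iff.2 hq]
  have hx : ∀ x ∈ Ioc 0 (a + k), Real.log (u x) = ∑ q ∈ Ioc 0 X, Λ q * if r q ∣ x then 1 else 0 := by
    intro x hx
    rw [log_eq _ X (u0 _ _ x hx) (Nat.le_of_dvd X0 (dvd_lcm hx))]
    simp only [hu, hr]
  have hp : ∀ c e, e ≤ a + k → Real.log ((∏ x ∈ Ioc c e, u x : ℕ) : ℝ) =
      ∑ q ∈ Ioc 0 X, Λ q * (#{x ∈ Ioc c e | r q ∣ x} : ℕ) := by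
    intro c e he
    rw [Nat.cast_prod, Real.log_prod (fun x hx => Nat.cast_ne_zero.2 (u0 _ _ x hx)),
      sum_congr rfl (fun x h => hx x (Ioc_subset_Ioc (Nat.zero_le _) he h)), sum_comm]
    refine sum_congr rfl (fun q _ => ?_)
    rw [← mul_sum, sum_boole]
  set b : ℕ → ℝ := fun d => ∑ q ∈ Ioc 0 X, Λ q * if r q = d then 1 else 0 with hb
  have hs : ∀ s : Finset ℕ, ∑ d ∈ s, b d = ∑ q ∈ Ioc 0 X, Λ q * if r q ∈ s then 1 else 0 := by
    intro s
    rw [sum_comm]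
    refine sum_congr rfl (fun q _ => ?_)
    rw [← mul_sum, sum_ite_eq]
  have b0 : ∀ d, 0 ≤ b d := fun d => sum_nonneg (fun q _ =>
    mul_nonneg vonMangoldt_nonneg (by split_ifs <;> norm_num))
  have hub : ∀ x ∈ Ioc 0 (a + k), Real.log (u x) = ∑ d ∈ x.divisors, b d := by
    intro x h
    rw [hx x h, hs]
    simp only [Nat.mem_divisors, ne_eq, (mem_Ioc.1 h).1.ne', not_false_iff, and_true]
  have hPhi : ∀ x, x ≠ 0 → (∀ d ∈ x.divisors.erase 1, Phi α β d ≠ 0) ∧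
      Real.log (u x) = ∑ d ∈ x.divisors.erase 1, Real.log ‖Phi α β d‖ := by
    intro x hx
    have e := prodPhi h1 h2 hab x hx
    have n0 : ∀ d ∈ x.divisors.erase 1, Phi α β d ≠ 0 :=
      prod_ne_zero_iff.1 (e ▸ Int.cast_ne_zero.2 (h0 x hx))
    refine ⟨n0, ?_⟩
    rw [← Real.log_prod (fun d hd => norm_ne_zero_iff.2 (n0 d hd)), ← norm_prod, ← e,
      Complex.norm_intCast, hu]
    simp only [Nat.cast_natAbs, Int.cast_abs]
  have hbP : ∀ d, 2 ≤ d → d ≤ a + k → b d = Real.log ‖Phi α β d‖ := by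
    intro d
    induction d using Nat.strong_induction_on with
    | _ d ih =>
      intro d2 dn
      have b1 : b 1 = 0 := by
        have := hub 1 (mem_Ioc.2 ⟨one_pos, by omega⟩)
        simpa [hu, U] using this.symm
      have e1 := hub d (mem_Ioc.2 ⟨by omega, dn⟩)
      have hd : d ∈ d.divisors.erase 1 := by simp; omega
      rw [(hPhi d (by omega)).2, ← add_sum_erase _ _ (Nat.one_mem_divisors.2 (by omega : d ≠ 0)), b1,
        zero_add, ← add_sum_erase _ _ hd, ← add_sum_erase _ _ hd] at e1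
      rw [sum_congr rfl (g := fun e => Real.log ‖Phi α β e‖) (f := b) ?_] at e1
      · linarith
      intro e he
      simp only [mem_erase, Nat.mem_divisors] at he
      have := Nat.le_of_dvd (by omega) he.2.2.1
      have := Nat.pos_of_dvd_of_pos he.2.2.1 (by omega)
      exact ih e (by omega) (by omega) (by omega)
  have key : Real.log ((∏ x ∈ Ioc a (a + k), u x : ℕ) : ℝ) + Real.log ((Ioc 0 k).lcm u : ℕ) =
      Real.log ((∏ x ∈ Ioc 0 k, u x : ℕ) : ℝ) + Real.log ((Ioc a (a + k)).lcm u : ℕ) +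
      ∑ d ∈ ({d ∈ Ioc 0 k | (a + k) % d < k % d} : Finset ℕ), b d := by
    rw [hp _ _ le_rfl, hp _ _ (Nat.le_add_left _ _), hl _ _ le_rfl, hl _ _ (Nat.le_add_left _ _), hs,
      ← sum_add_distrib, ← sum_add_distrib, ← sum_add_distrib]
    refine sum_congr rfl (fun q _ => ?_)
    have := congrArg (Nat.cast : ℕ → ℝ) (comb a k (r q))
    rw [Nat.cast_add, Nat.cast_add, Nat.cast_add, Nat.cast_ite (_ ∈ _), Nat.cast_one, Nat.cast_zero] at this
    linear_combination (Λ q) * this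
  have p1 : ∀ c e, (0 : ℝ) < ((∏ x ∈ Ioc c e, u x : ℕ) : ℝ) := fun c e =>
    Nat.cast_pos.2 (Nat.pos_of_ne_zero (prod_ne_zero_iff.2 (u0 c e)))
  have p2 : ∀ c e, (0 : ℝ) < ((Ioc c e).lcm u : ℕ) := fun c e =>
    Nat.cast_pos.2 (Nat.pos_of_ne_zero (Finset.lcm_ne_zero_iff.2 (u0 c e)))
  rw [← Real.log_mul (p1 _ _).ne' (p2 _ _).ne', ← Real.log_mul (p1 _ _).ne' (p2 _ _).ne'] at key
  rw [← Nat.cast_inj (R := ℝ), Nat.cast_mul, Nat.cast_mul, ← Real.log_injOn_pos.eq_iff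
    (mul_pos (p1 _ _) (p2 _ _)) (mul_pos (p1 _ _) (p2 _ _)), key, add_eq_left,
    sum_eq_zero_iff_of_nonneg (fun d _ => b0 d)]
  simp only [mem_filter, mem_Ioc, and_imp]
  have hn : ∀ d, 2 ≤ d → 0 < ‖Phi α β d‖ := fun d d2 =>
    norm_pos_iff.2 ((hPhi d (by omega)).1 d (by simp; omega))
  constructor
  · intro H d d2 dk hc
    have := H d (by omega) dk hc
    rw [hbP d d2 (by omega)] at this
    exact Real.eq_one_of_pos_of_log_eq_zero (hn d d2) this
  · intro H d d0 dk hc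
    have d2 : 2 ≤ d := by
      by_contra hd
      obtain rfl : d = 1 := by omega
      simp [Nat.mod_one] at hc
    rw [hbP d d2 (by omega), H d d2 dk hc, Real.log_one]

lemma big {α β : ℂ} (hP : P ≠ 0) (hQ : Q ≠ 0) (hD : 0 < P ^ 2 - 4 * Q) (h1 : α + β = P)
    (h2 : α * β = Q) (d : ℕ) (hd : 3 ≤ d) : 1 < ‖Phi α β d‖ := by
  have r1 := congrArg Complex.re h1
  have i1 := congrArg Complex.im h1
  have r2 := congrArg Complex.re h2
  have i2 := congrArg Complex.im h2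
  simp only [Complex.add_re, Complex.add_im, Complex.mul_re, Complex.mul_im, Complex.intCast_re,
    Complex.intCast_im] at r1 i1 r2 i2
  have hD' : (1 : ℝ) ≤ (P : ℝ) ^ 2 - 4 * Q := by exact_mod_cast hD
  have hP' : (1 : ℝ) ≤ (P : ℝ) ^ 2 := by
    have : 0 < P ^ 2 := by positivity
    exact_mod_cast this
  have hQ' : (Q : ℝ) ≠ 0 := by exact_mod_cast hQ
  have ib : β.im = -α.im := by linarith
  have ia : α.im = 0 := by
    by_contra hn
    rw [ib] at i2 r2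
    have : α.re = β.re := by
      have : α.im * (β.re - α.re) = 0 := by linarith
      rcases mul_eq_zero.1 this with h | h
      · exact absurd h hn
      · linarith
    rw [← r1, ← r2, this] at hD'
    nlinarith [sq_nonneg α.im]
  rw [ia, neg_zero] at ib
  rw [ia, ib, mul_zero, sub_zero] at r2
  rw [Phi, norm_prod, ← prod_const_one (s := primitiveRoots d ℂ)]
  refine prod_lt_prod_of_nonempty (fun _ _ => one_pos) (fun ζ hζ => ?_)
    ⟨_, (mem_primitiveRoots (by omega)).2 (Complex.isPrimitiveRoot_exp d (by omega))⟩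
  have hz := (mem_primitiveRoots (by omega : 0 < d)).1 hζ
  have hn : ζ.re ^ 2 + ζ.im ^ 2 = 1 := by
    have := hz.norm'_eq_one (by omega)
    rw [← sq_eq_sq₀ (norm_nonneg _) zero_le_one, Complex.sq_norm, Complex.normSq_apply] at this
    linarith
  have him : ζ.im ≠ 0 := by
    intro h
    have : ζ ^ 2 = 1 := by
      apply Complex.ext
      · simp [pow_two, h] at hn ⊢; exact hn
      · simp [pow_two, h]
    exact absurd (Nat.le_of_dvd two_pos (hz.dvd_of_pow_eq_one 2 this)) (by omega)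
  have hc : ζ.re ^ 2 < 1 := by have := sq_pos_of_ne_zero him; linarith
  have hc' := abs_lt.1 ((sq_lt_one_iff_abs_lt_one _).1 hc)
  rw [← sq_lt_sq₀ zero_le_one (norm_nonneg _), Complex.sq_norm, Complex.normSq_apply]
  simp only [Complex.sub_re, Complex.sub_im, Complex.mul_re, Complex.mul_im, ia, ib]
  have e : (α.re - (ζ.re * β.re - ζ.im * 0)) * (α.re - (ζ.re * β.re - ζ.im * 0)) +
      (0 - (ζ.re * 0 + ζ.im * β.re)) * (0 - (ζ.re * 0 + ζ.im * β.re)) =
      (P : ℝ) ^ 2 - 2 * Q * (1 + ζ.re) := by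
    rw [← r1, ← r2]
    linear_combination β.re ^ 2 * hn
  rw [e]
  rcases lt_or_gt_of_ne hQ' with h | h
  · nlinarith [mul_pos (neg_pos.2 h) (by linarith : 0 < 1 + ζ.re)]
  · nlinarith [mul_pos h (by linarith : 0 < 1 - ζ.re)]

lemma sgn (hP : P ≠ 0) (hD : 0 < P ^ 2 - 4 * Q) (m : ℕ) :
    0 < P.sign ^ m * U P Q (m + 1) ∧
      |P| * (P.sign ^ m * U P Q (m + 1)) < 2 * (P.sign ^ (m + 1) * U P Q (m + 2)) := by
  have h1 : P.sign * P = |P| := Int.sign_mul_self_eq_abs P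
  have h2 : P.sign * P.sign = 1 := by
    rcases lt_or_gt_of_ne hP with h | h
    · simp [Int.sign_eq_neg_one_of_neg h]
    · simp [Int.sign_eq_one_of_pos h]
  have h3 : 0 < |P| := abs_pos.2 hP
  have h4 : |P| * |P| = P ^ 2 := by rw [abs_mul_abs_self, pow_two]
  induction m with
  | zero => simp [U, h1]; linarith
  | succ m ih =>
    have e : P.sign ^ (m + 1 + 1) * U P Q (m + 1 + 2) = |P| * (P.sign ^ (m + 1) * U P Q (m + 2)) -
        Q * (P.sign ^ m * U P Q (m + 1)) := by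
      have : U P Q (m + 1 + 2) = P * U P Q (m + 2) - Q * U P Q (m + 1) := rfl
      rw [this, ← h1]
      linear_combination (-Q * P.sign ^ m * U P Q (m + 1)) * h2
    rw [e]
    generalize P.sign ^ (m + 1) * U P Q (m + 2) = y at ih ⊢
    generalize P.sign ^ m * U P Q (m + 1) = x at ih ⊢
    obtain ⟨a, b⟩ := ih
    have := mul_pos h3 a
    refine ⟨by linarith, ?_⟩
    nlinarith [mul_lt_mul_of_pos_left b h3, mul_pos hD a]

lemma sgnB (hP : P ≠ 0) (hD : 0 < P ^ 2 - 4 * Q) (a k : ℕ) :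
    0 < binom P Q (a + k) k ↔ 0 < P ∨ Even (k * a) := by
  have h0 : ∀ x ∈ Ioc 0 k, 0 < (P.sign : ℚ) ^ a * (U P Q (a + x) / U P Q x) := by
    intro x hx
    obtain ⟨y, rfl⟩ : ∃ y, x = y + 1 := ⟨x - 1, by have := (mem_Ioc.1 hx).1; omega⟩
    have e1 : (0 : ℚ) < (P.sign : ℚ) ^ (a + y) * U P Q (a + y + 1) := by
      exact_mod_cast (sgn hP hD (a + y)).1
    have e2 : (0 : ℚ) < (P.sign : ℚ) ^ y * U P Q (y + 1) := by exact_mod_cast (sgn hP hD y).1
    have := div_pos e1 e2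
    have n1 := left_ne_zero_of_mul e2.ne'
    rwa [pow_add, mul_comm (_ ^ a), mul_assoc, mul_div_mul_left _ _ n1, mul_div_assoc] at this
  have h1 := prod_pos h0
  have e : binom P Q (a + k) k = ∏ x ∈ Ioc 0 k, ((U P Q (a + x) : ℚ) / U P Q x) := by
    rw [binom, prod_div_distrib, Nat.add_sub_cancel]
    congr 1
    conv_lhs => rw [← add_zero a, add_assoc, zero_add, ← map_add_left_Ioc, prod_map]
    rfl
  rw [prod_mul_distrib, ← e, prod_const, Nat.card_Ioc, Nat.sub_zero, ← pow_mul, mul_comm a] at h1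
  rcases lt_or_gt_of_ne hP with h | h
  · rw [Int.sign_eq_neg_one_of_neg h] at h1
    rcases Nat.even_or_odd (k * a) with he | he
    · simpa [he, he.neg_one_pow] using h1
    · simp only [Int.cast_neg, Int.cast_one, he.neg_one_pow] at h1
      have := Nat.not_even_iff_odd.2 he
      constructor
      · intro h2; linarith
      · rintro (h2 | h2)
        · omega
        · contradiction
  · simpa [h, Int.sign_eq_one_of_pos h] using h1

theorem result (P Q : ℤ) (α β : ℂ) (hPQ : P * Q ≠ 0) (hD : P ^ 2 - 4 * Q ≠ 0)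
    (hg : Int.gcd P Q = 1) (h1 : α + β = P) (h2 : α * β = Q)
    (hr : ∀ m : ℕ, 0 < m → (α / β) ^ m ≠ 1) (n k : ℕ) (hk : 1 ≤ k) (hkn : k ≤ n) :
    (lcmBinom P Q n k = binom P Q n k ↔ 0 < binom P Q n k ∧
      ∀ d, 2 ≤ d → d ≤ k → n % d < k % d → ‖Phi α β d‖ = 1) ∧
    (0 < P ^ 2 - 4 * Q → (lcmBinom P Q n k = binom P Q n k ↔
      (0 < P ∨ Even (k * (n - k))) ∧ (∀ d, 3 ≤ d → d ≤ k → k % d ≤ n % d) ∧
        (2 ≤ k → |P| ≠ 1 → k % 2 ≤ n % 2))) := by
  obtain ⟨a, rfl⟩ := Nat.exists_eq_add_of_le' hkn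
  have hP := left_ne_zero_of_mul hPQ
  have hQ := right_ne_zero_of_mul hPQ
  have hb : β ≠ 0 := fun h => hQ (by rw [h, mul_zero] at h2; exact_mod_cast h2.symm)
  have hne : ∀ m, m ≠ 0 → α ^ m - β ^ m ≠ 0 := fun m hm h =>
    hr m (Nat.pos_of_ne_zero hm) (by rw [div_pow, sub_eq_zero.1 h, div_self (pow_ne_zero _ hb)])
  have hab : α - β ≠ 0 := by simpa using hne 1 one_ne_zero
  have h0 : ∀ m, m ≠ 0 → U P Q m ≠ 0 := fun m hm h =>
    hne m hm (by rw [← binet h1 h2, h]; simp)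
  have A := absEq (Int.isCoprime_iff_gcd_eq_one.2 hg) h1 h2 hab h0 a k
  have u0 : ∀ (c : ℕ) (e : ℕ), ∀ x ∈ Ioc c e, (U P Q x).natAbs ≠ 0 := fun c e x hx =>
    Int.natAbs_ne_zero.2 (h0 x (by have := (mem_Ioc.1 hx).1; omega))
  have p1 : ∀ c e, (0 : ℚ) < ((∏ x ∈ Ioc c e, (U P Q x).natAbs : ℕ) : ℚ) := fun c e =>
    Nat.cast_pos.2 (Nat.pos_of_ne_zero (prod_ne_zero_iff.2 (u0 c e)))
  have p2 : ∀ c e, (0 : ℚ) < ((Ioc c e).lcm fun x => (U P Q x).natAbs : ℕ) := fun c e =>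
    Nat.cast_pos.2 (Nat.pos_of_ne_zero (Finset.lcm_ne_zero_iff.2 (u0 c e)))
  have hL : 0 < lcmBinom P Q (a + k) k := div_pos (p2 _ _) (p2 _ _)
  have hA : lcmBinom P Q (a + k) k = |binom P Q (a + k) k| ↔ _ := Iff.trans (by
    have e : ∀ c e, |∏ x ∈ Ioc c e, (U P Q x : ℚ)| = ((∏ x ∈ Ioc c e, (U P Q x).natAbs : ℕ) : ℚ) := by
      intro c e
      simp [abs_prod]
    rw [lcmBinom, binom, abs_div, e, e, div_eq_div_iff (p2 _ _).ne' (p1 _ _).ne', Nat.add_sub_cancel,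
      ← Nat.cast_mul, ← Nat.cast_mul, Nat.cast_inj, eq_comm, mul_comm (Finset.lcm (Ioc a _) _)]) A
  have main : lcmBinom P Q (a + k) k = binom P Q (a + k) k ↔ 0 < binom P Q (a + k) k ∧
      ∀ d, 2 ≤ d → d ≤ k → (a + k) % d < k % d → ‖Phi α β d‖ = 1 := by
    rw [← hA]
    exact ⟨fun h => ⟨h ▸ hL, by rw [← h, abs_of_pos hL]⟩, fun h => by rw [h.2, abs_of_pos h.1]⟩
  refine ⟨main, fun hD => ?_⟩
  rw [main, sgnB hP hD, Nat.add_sub_cancel]
  have e2 : ‖Phi α β 2‖ = 1 ↔ |P| = 1 := by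
    have := prodPhi h1 h2 hab 2 two_ne_zero
    rw [show (Nat.divisors 2).erase 1 = {2} by decide, prod_singleton] at this
    rw [← this, Complex.norm_intCast]
    simp only [U, mul_one, mul_zero, sub_zero]
    exact_mod_cast Iff.rfl
  refine and_congr_right (fun _ => ⟨fun H => ⟨fun d d3 dk => ?_, fun k2 hp => ?_⟩, ?_⟩)
  · by_contra hc
    exact (big hP hQ hD h1 h2 d d3).ne' (H d (by omega) dk (not_le.1 hc))
  · by_contra hc
    exact hp (e2.1 (H 2 le_rfl k2 (not_le.1 hc)))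
  · rintro ⟨H3, H2⟩ d d2 dk hc
    rcases d2.eq_or_lt with rfl | h
    · exact e2.2 (by_contra fun hp => absurd (H2 dk hp) (not_le.2 hc))
    · exact absurd (H3 d h dk) (not_le.2 hc)

end Pool.Agent.Results.MP_763eff_nt.Carry
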